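import Pool.Agent.H77.HN.TRIV
import Pool.Agent.H83.HN.Para
import Pool.Agent.H13.HN.Iitaka

/-!
# HK(2n), module TRIVn: the parabolic group acts trivially on the base of the Iitaka fibration

After replacing the parabolic group by the group of `m`-th powers, every quotient of sections of
`b L` is invariant.
-/

namespace Pool.Agent.H79.HN

open Pool.Agent.H83.HN Pool.Agent.H13.HN

/-- KRONECKER for a complex number: an algebraic integer all of whose conjugates have absolute
value `1` is a root of unity. -/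
theorem kronecker (lam : ℂ) (hint : IsIntegral ℤ lam)
    (hconj : ∀ z ∈ (minpoly ℚ lam).aroots ℂ, ‖z‖ = 1) : ∃ m : ℕ, 0 < m ∧ lam ^ m = 1 := by
  have hQ : IsIntegral ℚ lam := hint.tower_top
  have hfd : FiniteDimensional ℚ (IntermediateField.adjoin ℚ {lam}) :=
    IntermediateField.adjoin.finiteDimensional hQ
  have : NumberField (IntermediateField.adjoin ℚ {lam}) := {}
  set x : IntermediateField.adjoin ℚ {lam} := IntermediateField.AdjoinSimple.gen ℚ lam with hx
  have hxl : (x : ℂ) = lam := IntermediateField.AdjoinSimple.coe_gen ℚ lam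
  have hxi : IsIntegral ℤ x := by
    rw [← isIntegral_algebraMap_iff (B := ℂ)
      (FaithfulSMul.algebraMap_injective (IntermediateField.adjoin ℚ {lam}) ℂ)]
    exact hint
  have hmin : minpoly ℚ x = minpoly ℚ lam := by
    have := minpoly.algebraMap_eq (A := ℚ) (B := IntermediateField.adjoin ℚ {lam}) (B' := ℂ)
      (FaithfulSMul.algebraMap_injective _ _) x
    rw [← this]
    rfl
  obtain ⟨m, hm, hxm⟩ := NumberField.Embeddings.pow_eq_one_of_norm_eq_one _ ℂ hxi (fun φ => by
    apply hconj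
    rw [← hmin]
    have h1 : φ x ∈ (minpoly ℚ x).rootSet ℂ := by
      rw [← NumberField.Embeddings.range_eval_eq_rootSet_minpoly]
      exact ⟨φ, rfl⟩
    rw [Polynomial.mem_rootSet'] at h1
    rw [Polynomial.mem_aroots']
    exact h1)
  refine ⟨m, hm, ?_⟩
  have h2 := congrArg (fun z : IntermediateField.adjoin ℚ {lam} => (z : ℂ)) hxm
  simpa [hxl] using h2

variable {n : ℕ} {Lam : Type} [AddCommGroup Lam] {q : Lam → Lam → ℤ}

/-- the action of `g` on the sections `V` is a homothety up to the trivialisation -/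
def Homo {P G : Type} [Group G] [MulAction G P] (V : Set (P → ℂ)) (g : G) : Prop :=
  ∃ w : P → ℂ, (∀ y, w y ≠ 0) ∧ ∀ t ∈ V, ∀ y, w y * t (g • y) = t y

theorem Homo.one {P G : Type} [Group G] [MulAction G P] (V : Set (P → ℂ)) : Homo V (1 : G) :=
  ⟨fun _ => 1, fun _ => one_ne_zero, fun t _ y => by simp⟩

theorem Homo.mul {P G : Type} [Group G] [MulAction G P] {V : Set (P → ℂ)} {g h : G}
    (hg : Homo V g) (hh : Homo V h) : Homo V (g * h) := by
  obtain ⟨w, hw, h1⟩ := hg
  obtain ⟨w', hw', h2⟩ := hh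
  refine ⟨fun y => w' y * w (h • y), fun y => mul_ne_zero (hw' y) (hw _), fun t ht y => ?_⟩
  rw [mul_smul, mul_assoc, h1 t ht, h2 t ht]

theorem Homo.inv {P G : Type} [Group G] [MulAction G P] {V : Set (P → ℂ)} {g : G}
    (hg : Homo V g) : Homo V g⁻¹ := by
  obtain ⟨w, hw, h1⟩ := hg
  refine ⟨fun y => (w (g⁻¹ • y))⁻¹, fun y => inv_ne_zero (hw _), fun t ht y => ?_⟩
  have h2 := h1 t ht (g⁻¹ • y)
  rw [smul_inv_smul] at h2
  rw [← h2, inv_mul_cancel_left₀ (hw _)]

theorem Homo.cross {P G : Type} [Group G] [MulAction G P] {V : Set (P → ℂ)} {g : G}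
    (hg : Homo V g) : ∀ u ∈ V, ∀ t ∈ V, ∀ y, u (g • y) * t y = u y * t (g • y) := by
  obtain ⟨w, hw, h1⟩ := hg
  intro u hu t ht y
  rw [← h1 t ht y, ← h1 u hu y]
  ring

/-- **One automorphism**: a power acts on the sections of `b L` by a homothety. -/
theorem homo_pow {M : Manifold n Lam q} {L : Lam} (I : Iitaka M L) (g : M.Aut)
    (hgL : M.pull g L = L) : ∃ m : ℕ, 0 < m ∧ Homo (M.Sec (I.b • L) : Set (M.P → ℂ)) (g ^ m) := by
  obtain ⟨u, hu, hus⟩ := M.pull_sec g (I.b • L)
  rw [map_nsmul, hgL] at hus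
  have := M.sec_fin (I.b • L)
  -- the operator
  let T0 : M.Sec (I.b • L) →ₗ[ℂ] M.Sec (I.b • L) :=
    { toFun := fun t => ⟨fun y => u y * t.1 (g • y), (hus _).2 ⟨t.1, t.2, fun _ => rfl⟩⟩
      map_add' := fun s t => by
        ext y
        simp only [Submodule.coe_add, Pi.add_apply]
        ring
      map_smul' := fun c t => by
        ext y
        simp only [Submodule.coe_smul, Pi.smul_apply, smul_eq_mul, RingHom.id_apply]
        ring }
  have hT0 : ∀ t y, (T0 t).1 y = u y * t.1 (g • y) := fun t y => rfl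
  have hbij : Function.Bijective T0 := by
    constructor
    · rw [← LinearMap.ker_eq_bot, LinearMap.ker_eq_bot']
      intro t ht
      ext y
      have h1 := hT0 t (g⁻¹ • y)
      rw [ht, smul_inv_smul] at h1
      have h2 : (0 : M.Sec (I.b • L)).1 (g⁻¹ • y) = 0 := rfl
      rw [h2] at h1
      exact (mul_eq_zero.1 h1.symm).resolve_left (hu _)
    · intro s
      obtain ⟨t, ht, h1⟩ := (hus s.1).1 s.2
      exact ⟨⟨t, ht⟩, Subtype.ext (funext fun y => (h1 y).symm)⟩
  let T : M.Sec (I.b • L) ≃ₗ[ℂ] M.Sec (I.b • L) := LinearEquiv.ofBijective T0 hbij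
  have hT : ∀ t y, (T t).1 y = u y * t.1 (g • y) := fun t y => rfl
  obtain ⟨m, hm, c, hc⟩ := pow_scalar T (IsAlgClosed.splits _)
    (by
      intro s t a b hs ht hsa htb
      have ha0 : a ≠ 0 := by
        rintro rfl
        rw [zero_smul] at hsa
        exact hs (T.map_eq_zero_iff.mp hsa)
      have hb0 : b ≠ 0 := by
        rintro rfl
        rw [zero_smul] at htb
        exact ht (T.map_eq_zero_iff.mp htb)
      have e1 : ∀ y, u y * s.1 (g • y) = a * s.1 y := fun y => by
        rw [← hT, hsa]; rfl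
      have e2 : ∀ y, u y * t.1 (g • y) = b * t.1 y := fun y => by
        rw [← hT, htb]; rfl
      obtain ⟨h1, h2⟩ := I.recur_mul g s.1 s.2 t.1 t.2 (fun h => hs (Subtype.ext h))
        (fun h => ht (Subtype.ext h)) (a / b) (fun y => by
          have hb := hb0
          apply mul_left_cancel₀ (mul_ne_zero (hu y) hb0)
          have e3 := e1 y
          have e4 := e2 y
          field_simp
          linear_combination (b * t.1 y) * e3 - (a * s.1 y) * e4)
      obtain ⟨m, hm, h3⟩ := kronecker _ h1 h2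
      refine ⟨m, hm, ?_⟩
      rw [div_pow, div_eq_one_iff_eq (pow_ne_zero _ hb0)] at h3
      exact h3)
    (by
      intro s t a ht hta hsa
      have e1 : ∀ y, u y * s.1 (g • y) = a * s.1 y + a * t.1 y := fun y => by
        rw [← hT, hsa]; rfl
      have e2 : ∀ y, u y * t.1 (g • y) = a * t.1 y := fun y => by
        rw [← hT, hta]; rfl
      have h1 := I.recur_add g s.1 s.2 t.1 t.2 (fun h => ht (Subtype.ext h)) 1 (fun y => by
        apply mul_left_cancel₀ (hu y)
        have e3 := e1 y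
        have e4 := e2 y
        linear_combination (t.1 y) * e3 - (s.1 y) * e4 - (t.1 y) * e4)
      exact one_ne_zero h1)
  -- the iterates
  have hiter : ∀ j : ℕ, ∃ W : M.P → ℂ, (∀ y, W y ≠ 0) ∧ ∀ t : M.Sec (I.b • L), ∀ y,
      ((T0^[j] t).1 y) = W y * t.1 (g ^ j • y) := by
    intro j
    induction j with
    | zero => exact ⟨fun _ => 1, fun _ => one_ne_zero, fun t y => by simp⟩
    | succ j ih =>
      obtain ⟨W, hW, h1⟩ := ih
      refine ⟨fun y => u y * W (g • y), fun y => mul_ne_zero (hu y) (hW _), fun t y => ?_⟩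
      rw [Function.iterate_succ_apply', hT0, h1, pow_succ, mul_smul, mul_assoc]
  obtain ⟨W, hW, h1⟩ := hiter m
  have h2 : ∀ t : M.Sec (I.b • L), ∀ y, W y * t.1 (g ^ m • y) = c * t.1 y := by
    intro t y
    rw [← h1 t y]
    have h3 := hc t
    have h4 : T0^[m] t = c • t := h3
    rw [h4]; rfl
  by_cases hc0 : c = 0
  · -- no sections
    refine ⟨m, hm, fun _ => 1, fun _ => one_ne_zero, fun t ht y => ?_⟩
    have h5 : ∀ z, t z = 0 := by
      intro z
      have h6 := h2 ⟨t, ht⟩ ((g ^ m)⁻¹ • z)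
      rw [smul_inv_smul, hc0, zero_mul] at h6
      exact (mul_eq_zero.1 h6).resolve_left (hW _)
    rw [h5, h5, mul_zero]
  · refine ⟨m, hm, fun y => c⁻¹ * W y, fun y => mul_ne_zero (inv_ne_zero hc0) (hW y),
      fun t ht y => ?_⟩
    have h6 := h2 ⟨t, ht⟩ y
    rw [mul_assoc, h6, inv_mul_cancel_left₀ hc0]

/-- **TRIVn**: after replacing the parabolic group by the group of `m`-th powers it acts trivially
on the base of the Iitaka fibration. -/
theorem triv_of {M : Manifold n Lam q} {L A : Lam} {r : ℕ} (π : Para M L A r) (I : Iitaka M L)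
    (q_symm : ∀ x y, q x y = q y x) (hL : L ∈ M.Nef) (hLL : q L L = 0) :
    ∃ m : ℕ, ∃ hm : 0 < m, ∀ k, (π.mul m hm).rho k ∈ I.triv := by
  classical
  have hpL : ∀ k, M.pull (π.rho k) L = L := by
    intro k
    rw [π.pull_eq, hLL, π.b_L]
    simp
  have hpow : ∀ (e : Fin r → ℤ) (j : ℕ), π.rho (j • e) = π.rho e ^ j := by
    intro e j
    induction j with
    | zero => simp [π.rho_zero]
    | succ j ih => rw [succ_nsmul, π.rho_add, ih, pow_succ]
  let H : AddSubgroup (Fin r → ℤ) :=
    { carrier := {k | Homo (M.Sec (I.b • L) : Set (M.P → ℂ)) (π.rho k)}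
      zero_mem' := by
        show Homo _ (π.rho 0)
        rw [π.rho_zero]
        exact Homo.one _
      add_mem' := fun {a b} ha hb => by
        show Homo _ (π.rho (a + b))
        rw [π.rho_add]
        exact Homo.mul ha hb
      neg_mem' := fun {a} ha => by
        show Homo _ (π.rho (-a))
        have h1 : π.rho (-a) = (π.rho a)⁻¹ := by
          rw [eq_inv_iff_mul_eq_one, ← π.rho_add, neg_add_cancel, π.rho_zero]
        rw [h1]
        exact Homo.inv ha }
  have hgen : ∀ i : Fin r, ∃ m : ℕ, 0 < m ∧ m • (Pi.single i 1 : Fin r → ℤ) ∈ H := by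
    intro i
    obtain ⟨m, hm, h1⟩ := homo_pow I (π.rho (Pi.single i 1)) (hpL _)
    refine ⟨m, hm, ?_⟩
    show Homo _ (π.rho (m • (Pi.single i 1 : Fin r → ℤ)))
    rw [hpow]
    exact h1
  choose m hm hmem using hgen
  have hmul : ∀ k : Fin r → ℤ, (∏ i, m i) • k ∈ H := by
    intro k
    have h1 : (∏ i, m i) • k = ∑ i, (k i) • ((∏ i, m i) • (Pi.single i 1 : Fin r → ℤ)) := by
      ext j
      simp only [Pi.smul_apply, nsmul_eq_mul, Finset.sum_apply, smul_eq_mul]
      rw [Finset.sum_eq_single j]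
      · simp
        ring
      · intro b _ hb
        simp [Pi.single_eq_of_ne (Ne.symm hb)]
      · intro h; exact absurd (Finset.mem_univ j) h
    rw [h1]
    refine H.sum_mem fun i _ => H.zsmul_mem ?_ _
    obtain ⟨d, hd⟩ := Finset.dvd_prod_of_mem m (Finset.mem_univ i)
    rw [hd, mul_comm, mul_smul]
    exact H.nsmul_mem (hmem i) d
  refine ⟨∏ i, m i, Finset.prod_pos fun i _ => hm i, fun k => ?_⟩
  rw [I.triv_iff]
  refine ⟨hpL _, fun v hv => ?_, ?_⟩
  · show M.pull (π.rho ((∏ i, m i) • k)) v = v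
    have h1 : q L v = 0 := by rw [q_symm]; exact hv L (M.nef_NS hL)
    have h2 : q (π.b ((∏ i, m i) • k)) v = 0 := by rw [q_symm]; exact hv _ (π.b_NS _)
    rw [π.pull_eq, h1, h2]
    simp
  · have h3 : Homo (M.Sec (I.b • L) : Set (M.P → ℂ)) (π.rho ((∏ i, m i) • k)) := hmul k
    exact fun u hu t ht y => h3.cross u hu t ht y

end Pool.Agent.H79.HN
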