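import Mathlib

/-!
# HK(2n), module TRIV: three elementary facts

* `no_translation` : a finite measure has no function translated by a non zero constant,
* `root_of_unity` : Kronecker's theorem for the absolute values of a number field,
* `pow_scalar` : a power of a diagonalisable automorphism whose eigenvalues have quotients of finite
  order is a homothety.
-/

namespace Pool.Agent.H79.HN

open MeasureTheory Filter Topology

/-- a finite measure has no function which is translated by a non zero constant (`f` defined almost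
everywhere) -/
theorem no_translation {X : Type} [MeasurableSpace X] (μ : MeasureTheory.Measure X)
    [MeasureTheory.IsFiniteMeasure μ] (hμ : μ ≠ 0) (g : X → X)
    (hg : MeasureTheory.MeasurePreserving g μ μ) (f : X → ℝ) (hf : Measurable f) (c : ℝ)
    (h : ∀ᵐ x ∂μ, f (g x) = f x + c) : c = 0 := by
  by_contra hc
  have hfin : IsFiniteMeasure (μ.map f) := inferInstance
  have hT : MeasurePreserving (fun y : ℝ => y + c) (μ.map f) (μ.map f) := by
    refine ⟨measurable_id.add_const c, ?_⟩
    have e1 : (μ.map f).map (fun y : ℝ => y + c) = μ.map (fun x => f x + c) := by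
      have hm : Measurable (fun y : ℝ => y + c) := measurable_id.add_const c
      rw [Measure.map_map hm hf]; rfl
    have e2 : μ.map (fun x => f x + c) = μ.map (fun x => f (g x)) :=
      Measure.map_congr (h.mono fun x hx => hx.symm)
    have e3 : μ.map (fun x => f (g x)) = (μ.map g).map f := by
      rw [Measure.map_map hf hg.measurable]; rfl
    rw [e1, e2, e3, hg.map_eq]
  have hcons : Conservative (fun y : ℝ => y + c) (μ.map f) := hT.conservative
  have hae := hcons.ae_frequently_mem_of_mem_nhds
  have hiter : ∀ (n : ℕ) (y : ℝ), (fun y : ℝ => y + c)^[n] y = y + n * c := by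
    intro n y
    induction n with
    | zero => simp
    | succ n ih =>
      rw [Function.iterate_succ_apply', ih]
      push_cast
      ring
  have hzero : (μ.map f) = 0 := by
    rw [← ae_eq_bot, ← Filter.eventually_false_iff_eq_bot]
    filter_upwards [hae] with y hy
    have hs : Metric.ball y |c| ∈ 𝓝 y := Metric.ball_mem_nhds y (abs_pos.mpr hc)
    have h2 := hy _ hs
    apply h2
    filter_upwards [eventually_ge_atTop 1] with n hn
    rw [hiter, Metric.mem_ball, Real.dist_eq]
    have h3 : y + n * c - y = n * c := by ring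
    rw [h3, abs_mul]
    have h4 : (1 : ℝ) ≤ |(n : ℝ)| := by
      rw [Nat.abs_cast]
      exact_mod_cast hn
    nlinarith [abs_nonneg c]
  apply hμ
  have h5 : (μ.map f) Set.univ = 0 := by rw [hzero]; simp
  rw [Measure.map_apply hf MeasurableSet.univ] at h5
  simpa using h5

open Height Height.AdmissibleAbsValues NumberField in
/-- KRONECKER: an element of absolute value `1` at all places is a root of unity. -/
theorem root_of_unity {K : Type} [Field K] [NumberField K] (a : K)
    (h1 : ∀ w ∈ archAbsVal (K := K), w a = 1) (h2 : ∀ w ∈ nonarchAbsVal (K := K), w a = 1) :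
    ∃ m : ℕ, 0 < m ∧ a ^ m = 1 := by
  have hint : IsIntegral ℤ a := by
    have hmem := IsDedekindDomain.HeightOneSpectrum.mem_integers_of_valuation_le_one
      (R := 𝓞 K) K a (fun v => by
        have h3 : (FinitePlace.mk v) a = 1 := h2 _ (FinitePlace.isFinitePlace (FinitePlace.mk v))
        rw [FinitePlace.mk_apply] at h3
        have h4 : ‖FinitePlace.embedding v a‖ ≤ 1 := h3.le
        rw [FinitePlace.norm_embedding, NumberField.HeightOneSpectrum.adicAbv_def] at h4
        have h5 : WithZeroMulInt.toNNReal (NumberField.HeightOneSpectrum.absNorm_ne_zero v)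
            (v.valuation K a) ≤ 1 := by exact_mod_cast h4
        by_contra hcon
        have h6 := WithZeroMulInt.toNNReal_strictMono
          (NumberField.HeightOneSpectrum.one_lt_absNorm_nnreal v) (not_le.mp hcon)
        rw [map_one] at h6
        exact absurd h5 (not_le.mpr h6))
    obtain ⟨y, hy⟩ := hmem
    rw [← hy]
    exact y.isIntegral_coe
  obtain ⟨n, hn, hx⟩ := Embeddings.pow_eq_one_of_norm_eq_one K ℂ hint (fun φ => by
    have h5 := h1 (InfinitePlace.mk φ).val
      (mem_multisetInfinitePlace.mpr (InfinitePlace.isInfinitePlace _))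
    rw [← InfinitePlace.apply]
    exact h5)
  exact ⟨n, hn, hx⟩

open Polynomial in
/-- **TRIV**: an automorphism of a finite dimensional space (over a field of characteristic zero
containing its eigenvalues), all quotients of eigenvalues being roots of unity and without a
Jordan block of size two, has a power which is a homothety. -/
theorem pow_scalar {K : Type} [Field K] [CharZero K] {V : Type} [AddCommGroup V] [Module K V]
    [Module.Finite K V] (T : V ≃ₗ[K] V)
    (hsplit : ((T : V →ₗ[K] V).charpoly).Splits)
    (hroot : ∀ s t : V, ∀ a b : K, s ≠ 0 → t ≠ 0 → T s = a • s → T t = b • t →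
      ∃ m : ℕ, 0 < m ∧ a ^ m = b ^ m)
    (hblock : ∀ s t : V, ∀ a : K, t ≠ 0 → T t = a • t → T s = a • s + a • t → False) :
    ∃ m : ℕ, 0 < m ∧ ∃ c : K, ∀ s : V, (T : V →ₗ[K] V)^[m] s = c • s := by
  classical
  set f : Module.End K V := (T : V →ₗ[K] V) with hf
  have hfT : ∀ v, f v = T v := fun v => rfl
  set p := minpoly K f with hp
  have hpint : IsIntegral K f := Algebra.IsIntegral.isIntegral f
  have hp0 : p ≠ 0 := minpoly.ne_zero hpint
  have hmonic : p.Monic := minpoly.monic hpint
  have hps : p.Splits := hsplit.of_dvd f.charpoly_monic.ne_zero (LinearMap.minpoly_dvd_charpoly f)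
  -- roots are eigenvalues
  have heig : ∀ a ∈ p.roots, ∃ v : V, v ≠ 0 ∧ T v = a • v := by
    intro a ha
    have h1 : p.IsRoot a := (mem_roots hp0).mp ha
    have h2 : f.HasEigenvalue a := Module.End.hasEigenvalue_of_isRoot h1
    obtain ⟨v, hv⟩ := h2.exists_hasEigenvector
    exact ⟨v, hv.2, hv.apply_eq_smul⟩
  -- no double root
  have hnodup : p.roots.Nodup := by
    rw [Multiset.nodup_iff_count_le_one]
    intro a
    rw [count_roots]
    by_contra hcon
    have h2 : 2 ≤ p.rootMultiplicity a := by omega
    have hdvd : (X - C a) ^ 2 ∣ p := (le_rootMultiplicity_iff hp0).mp h2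
    obtain ⟨q, hq⟩ := hdvd
    have hq0 : q ≠ 0 := by
      rintro rfl
      exact hp0 (by rw [hq, mul_zero])
    have hlt : ((X - C a) * q).degree < p.degree := by
      apply degree_lt_degree
      rw [hq, sq, mul_assoc, natDegree_mul (X_sub_C_ne_zero a)
        (mul_ne_zero (X_sub_C_ne_zero a) hq0), natDegree_X_sub_C]
      exact lt_one_add _
    have hne : aeval f ((X - C a) * q) ≠ 0 := by
      intro h0
      have h4 : p ∣ (X - C a) * q := minpoly.dvd K f h0
      have h5 := Polynomial.degree_le_of_dvd h4 (mul_ne_zero (X_sub_C_ne_zero a) hq0)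
      exact absurd hlt (not_lt.mpr h5)
    obtain ⟨v, hv⟩ : ∃ v, aeval f ((X - C a) * q) v ≠ 0 := by
      by_contra hall
      push Not at hall
      exact hne (LinearMap.ext hall)
    set s := aeval f q v with hs
    set t' := aeval f ((X - C a) * q) v with ht'
    have e1 : T s = a • s + t' := by
      rw [ht', map_mul, Module.End.mul_apply, ← hs]
      simp only [map_sub, aeval_X, aeval_C, LinearMap.sub_apply, Module.algebraMap_end_apply]
      rw [hfT]
      abel
    have e2 : T t' = a • t' := by
      have h6 : aeval f p v = 0 := by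
        rw [hp, minpoly.aeval]
        rfl
      rw [hq, sq, mul_assoc, map_mul, Module.End.mul_apply, ← ht'] at h6
      simp only [map_sub, aeval_X, aeval_C, LinearMap.sub_apply, Module.algebraMap_end_apply] at h6
      rw [hfT] at h6
      exact sub_eq_zero.mp h6
    have ha0 : a ≠ 0 := by
      rintro rfl
      rw [zero_smul] at e2
      exact hv (T.map_eq_zero_iff.mp e2)
    refine hblock s (a⁻¹ • t') a (smul_ne_zero (inv_ne_zero ha0) hv) ?_ ?_
    · rw [map_smul, e2, smul_comm]
    · rw [e1, smul_smul, mul_inv_cancel₀ ha0, one_smul]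
  -- a common exponent
  obtain ⟨M, hM, c, hc⟩ : ∃ M : ℕ, 0 < M ∧ ∃ c : K, ∀ a ∈ p.roots, a ^ M = c := by
    by_cases hem : ∃ b, b ∈ p.roots
    · obtain ⟨b, hb⟩ := hem
      obtain ⟨t, ht0, ht⟩ := heig b hb
      have hex : ∀ a : K, ∃ m : ℕ, 0 < m ∧ (a ∈ p.roots → a ^ m = b ^ m) := by
        intro a
        by_cases ha : a ∈ p.roots
        · obtain ⟨s, hs0, hs⟩ := heig a ha
          obtain ⟨m, hm, hmm⟩ := hroot s t a b hs0 ht0 hs ht
          exact ⟨m, hm, fun _ => hmm⟩
        · exact ⟨1, one_pos, fun h => absurd h ha⟩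
      choose m hm hmm using hex
      refine ⟨∏ a ∈ p.roots.toFinset, m a, Finset.prod_pos fun a _ => hm a,
        b ^ ∏ a ∈ p.roots.toFinset, m a, fun a ha => ?_⟩
      obtain ⟨k, hk⟩ := Finset.dvd_prod_of_mem m (Multiset.mem_toFinset.mpr ha)
      rw [hk, pow_mul, pow_mul, hmm a ha]
    · push Not at hem
      exact ⟨1, one_pos, 1, fun a ha => absurd ha (hem a)⟩
  refine ⟨M, hM, c, fun s => ?_⟩
  have hq0 : (X ^ M - C c : K[X]) ≠ 0 := X_pow_sub_C_ne_zero hM c
  have hdvd : p ∣ X ^ M - C c := by
    have h1 : p = (p.roots.map fun a => X - C a).prod :=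
      hps.eq_prod_roots_of_monic hmonic
    rw [h1, Multiset.prod_X_sub_C_dvd_iff_le_roots hq0, Multiset.le_iff_subset hnodup]
    intro a ha
    rw [mem_roots hq0, IsRoot, eval_sub, eval_pow, eval_X, eval_C, hc a ha, sub_self]
  have hz : aeval f (X ^ M - C c) = 0 := by
    obtain ⟨q, hq⟩ := hdvd
    rw [hq, map_mul, hp, minpoly.aeval, zero_mul]
  have h7 := LinearMap.congr_fun hz s
  simp only [map_sub, map_pow, aeval_X, aeval_C, LinearMap.sub_apply, Module.algebraMap_end_apply,
    LinearMap.zero_apply] at h7
  rw [← Module.End.pow_apply]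
  exact sub_eq_zero.mp h7

end Pool.Agent.H79.HN
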